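import Mathlib

namespace Pool.Agent.Results.MP_cb1e0a_co.Disproof

open Set Filter Topology

/-- Any two points are joined by a constant speed geodesic (a path of length `dist x y`). -/
def IsGeodesic (X : Type) [MetricSpace X] : Prop :=
  ∀ x y : X, ∃ γ : ℝ → X, γ 0 = x ∧ γ 1 = y ∧
    ∀ s ∈ Icc (0 : ℝ) 1, ∀ t ∈ Icc (0 : ℝ) 1, dist (γ s) (γ t) = |s - t| * dist x y

/-- The isometry group acts transitively. -/
def IsHomogeneous (X : Type) [MetricSpace X] : Prop :=
  ∀ x y : X, ∃ i : X ≃ᵢ X, i x = y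

/-- `c n i` is the position of cop `i` after step `n`; the cops start at `c0` and each moves
at most `τ n` in step `n ≥ 1`. -/
def LegalCops {X : Type} [MetricSpace X] {k : ℕ} (τ : ℕ → ℝ) (c0 : Fin k → X)
    (c : ℕ → Fin k → X) : Prop :=
  c 0 = c0 ∧ ∀ n i, dist (c n i) (c (n + 1) i) ≤ τ (n + 1)

/-- The position `r^n` of the robber who follows the rule `σ`: it depends only on the earlier
cop positions `c^0, …, c^(n-1)`. -/
def robberPos {X : Type} {k : ℕ} (σ : (n : ℕ) → (Fin n → Fin k → X) → X)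
    (c : ℕ → Fin k → X) (n : ℕ) : X :=
  σ n (fun m => c m)

/-- `k` cops can win against every strategy of the robber (agility `τ`, starting positions,
legal move rule `σ`): some legal cop play brings the infimum of the distances to `0`
(a capture is the case of a distance equal to `0`). -/
def CopsWin (X : Type) [MetricSpace X] (k : ℕ) : Prop :=
  ∀ (τ : ℕ → ℝ) (c0 : Fin k → X) (σ : (n : ℕ) → (Fin n → Fin k → X) → X),
    (∀ n, 0 < τ n) →
    Tendsto (fun N => ∑ n ∈ Finset.range N, τ (n + 1)) atTop atTop →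
    (∀ c, LegalCops τ c0 c → ∀ n,
      dist (robberPos σ c n) (robberPos σ c (n + 1)) ≤ τ (n + 1)) →
    ∃ c, LegalCops τ c0 c ∧ ∀ δ > 0, ∃ n i, dist (robberPos σ c n) (c n i) < δ

noncomputable def per (n : ℕ) : ℝ := (1 / 2 : ℝ) ^ n

lemma per_pos (n : ℕ) : 0 < per n := by unfold per; positivity

lemma per_le_one (n : ℕ) : per n ≤ 1 := by
  unfold per; exact pow_le_one₀ (by norm_num) (by norm_num)

lemma per_anti {m n : ℕ} (h : m ≤ n) : per n ≤ per m := by
  unfold per; exact pow_le_pow_of_le_one (by norm_num) (by norm_num) h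

instance factPer (n : ℕ) : Fact (0 < per n) := ⟨per_pos n⟩

abbrev E (n : ℕ) : Type := AddCircle (per n)

lemma normE {n : ℕ} (x : E n) : ‖x‖ ≤ per n / 2 := by
  have := AddCircle.norm_le_half_period (per n) (x := x) (per_pos n).ne'
  rwa [abs_of_pos (per_pos n)] at this

abbrev T : Type := lp E ⊤

lemma memT (f : ∀ n, E n) : Memℓp f ⊤ := by
  apply memℓp_infty
  refine ⟨1, ?_⟩
  rintro _ ⟨n, rfl⟩
  have h1 := normE (f n)
  have h2 := per_le_one n
  show ‖f n‖ ≤ 1
  linarith

def mk (f : ∀ n, E n) : T := ⟨f, memT f⟩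

@[simp] lemma mk_apply (f : ∀ n, E n) (n : ℕ) : (mk f : ∀ n, E n) n = f n := rfl

lemma dist_le {x y : T} {a : ℝ} (ha : 0 ≤ a)
    (h : ∀ n, ‖(x : ∀ n, E n) n - (y : ∀ n, E n) n‖ ≤ a) : dist x y ≤ a := by
  rw [dist_eq_norm]
  apply lp.norm_le_of_forall_le ha
  intro n
  simpa using h n

lemma le_dist (x y : T) (n : ℕ) :
    ‖(x : ∀ n, E n) n - (y : ∀ n, E n) n‖ ≤ dist x y := by
  rw [dist_eq_norm]
  have := lp.norm_apply_le_norm (p := ⊤) (by simp) (x - y) n
  simpa using this

lemma mk_cont : Continuous mk := by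
  rw [continuous_iff_continuousAt]
  intro x
  rw [ContinuousAt, Metric.tendsto_nhds]
  intro ε hε
  obtain ⟨N, hN⟩ := exists_pow_lt_of_lt_one hε (show (1 / 2 : ℝ) < 1 by norm_num)
  have h1 : ∀ᶠ y in 𝓝 x, ∀ n ∈ Finset.range N, dist (y n) (x n) < ε / 2 := by
    rw [Filter.eventually_all_finset]
    intro n _
    have : ContinuousAt (fun y : ∀ n, E n => y n) x := (continuous_apply n).continuousAt
    exact (Metric.tendsto_nhds.1 this) _ (by linarith)
  filter_upwards [h1] with y hy
  have : dist (mk y) (mk x) ≤ ε / 2 := by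
    apply dist_le (by linarith)
    intro n
    simp only [mk_apply]
    by_cases hn : n < N
    · have := hy n (Finset.mem_range.2 hn)
      rw [dist_eq_norm] at this
      exact this.le
    · have h2 := normE (y n - x n)
      have h3 := per_anti (not_lt.1 hn)
      have h4 : per N < ε := hN
      linarith
  linarith

lemma compactT : CompactSpace T := by
  have hs : Function.Surjective mk := fun x => ⟨x, rfl⟩
  exact hs.compactSpace mk_cont

lemma homT : IsHomogeneous T := fun x y =>
  ⟨IsometryEquiv.addRight (y - x), by simp⟩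

lemma lift {n : ℕ} (z : E n) : ∃ a : ℝ, (a : E n) = z ∧ |a| = ‖z‖ := by
  induction z using QuotientAddGroup.induction_on with
  | H x =>
    refine ⟨x - round ((per n)⁻¹ * x) * per n, ?_, (AddCircle.norm_eq (per n)).symm⟩
    have h0 : (((round ((per n)⁻¹ * x) : ℤ) * per n : ℝ) : E n) = 0 := by
      rw [AddCircle.coe_eq_zero_iff]
      exact ⟨round ((per n)⁻¹ * x), by simp⟩
    rw [AddCircle.coe_sub, h0, sub_zero]

lemma geoT : IsGeodesic T := by
  intro x y
  choose a ha hb using fun n => lift ((y : ∀ n, E n) n - (x : ∀ n, E n) n)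
  refine ⟨fun t => mk (fun n => (x : ∀ n, E n) n + ((t * a n : ℝ) : E n)), ?_, ?_, ?_⟩
  · apply Subtype.ext
    funext n
    show (x : ∀ n, E n) n + ((0 * a n : ℝ) : E n) = _
    simp
  · apply Subtype.ext
    funext n
    show (x : ∀ n, E n) n + ((1 * a n : ℝ) : E n) = _
    rw [one_mul, ha]; simp
  · intro s hs t ht
    have hst : |s - t| ≤ 1 := by
      rw [abs_le]; constructor <;> linarith [hs.1, hs.2, ht.1, ht.2]
    have key : ∀ n, ‖((x : ∀ n, E n) n + ((s * a n : ℝ) : E n)) -
        ((x : ∀ n, E n) n + ((t * a n : ℝ) : E n))‖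
          = |s - t| * ‖(x : ∀ n, E n) n - (y : ∀ n, E n) n‖ := by
      intro n
      have e1 : ((x : ∀ n, E n) n + ((s * a n : ℝ) : E n)) -
        ((x : ∀ n, E n) n + ((t * a n : ℝ) : E n)) = (((s - t) * a n : ℝ) : E n) := by
        rw [sub_mul, AddCircle.coe_sub]; abel
      rw [e1, norm_sub_rev, ← hb n, ← abs_mul]
      rw [AddCircle.norm_coe_eq_abs_iff (per n) (per_pos n).ne', abs_mul, hb n,
        abs_of_pos (per_pos n)]
      have h2 := normE ((y : ∀ n, E n) n - (x : ∀ n, E n) n)
      have h3 := norm_nonneg ((y : ∀ n, E n) n - (x : ∀ n, E n) n)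
      nlinarith [abs_nonneg (s - t)]
    rw [dist_eq_norm, dist_eq_norm, lp.norm_eq_ciSup, lp.norm_eq_ciSup,
      Real.mul_iSup_of_nonneg (abs_nonneg _)]
    congr 1
    funext n
    simpa using key n

/-- stay opposite to cop `j` on circle `j`. -/
noncomputable def opp {k : ℕ} (c : Fin k → T) : T :=
  mk (fun j => if h : j < k then (c ⟨j, h⟩ : ∀ n, E n) j + ((per j / 2 : ℝ) : E j) else 0)

noncomputable def strat (k : ℕ) : (n : ℕ) → (Fin n → Fin k → T) → T
  | 0, _ => opp (fun _ : Fin k => 0)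
  | n + 1, h => opp (h (Fin.last n))

lemma opp_dist {k : ℕ} {c d : Fin k → T} {a : ℝ} (ha : 0 ≤ a) (h : ∀ i, dist (c i) (d i) ≤ a) :
    dist (opp c) (opp d) ≤ a := by
  apply dist_le ha
  intro j
  simp only [opp, mk_apply]
  by_cases hj : j < k
  · simp only [hj, dif_pos, add_sub_add_right_eq_sub]
    exact (le_dist _ _ j).trans (h _)
  · simp [hj, ha]

lemma opp_far {k : ℕ} (c : Fin k → T) (i : Fin k) : per k / 2 ≤ dist (opp c) (c i) := by
  have h1 := le_dist (opp c) (c i) i
  have h2 : (opp c : ∀ n, E n) i - (c i : ∀ n, E n) i = ((per i / 2 : ℝ) : E i) := by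
    simp [opp]
  rw [h2, AddCircle.norm_half_period_eq, abs_of_pos (per_pos _)] at h1
  have := per_anti i.2.le
  linarith

lemma not_win (k : ℕ) : ¬ CopsWin T k := by
  intro H
  have hp := per_pos k
  obtain ⟨c, hc, hw⟩ := H (fun _ => per k / 4) (fun _ => 0) (strat k) (fun _ => by linarith)
    (by
      simp only [Finset.sum_const, Finset.card_range, nsmul_eq_mul]
      exact tendsto_natCast_atTop_atTop.atTop_mul_const (by linarith))
    (by
      intro c hc n
      cases n with
      | zero =>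
        show dist (opp (fun _ : Fin k => 0)) (opp (c 0)) ≤ _
        rw [hc.1, dist_self]; linarith
      | succ n =>
        show dist (opp (c n)) (opp (c (n + 1))) ≤ _
        exact opp_dist (by linarith) (hc.2 n))
  obtain ⟨n, i, hn⟩ := hw (per k / 4) (by linarith)
  cases n with
  | zero =>
    have h1 : dist (opp (fun _ : Fin k => 0)) (c 0 i) < per k / 4 := hn
    have h2 := opp_far (c 0) i
    rw [hc.1] at h1 h2
    linarith
  | succ n =>
    have h1 : dist (opp (c n)) (c (n + 1) i) < per k / 4 := hn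
    have h2 := opp_far (c n) i
    have h3 : dist (c n i) (c (n + 1) i) ≤ per k / 4 := hc.2 n i
    have h4 := dist_triangle_right (opp (c n)) (c n i) (c (n + 1) i)
    linarith

theorem result : ∃ (X : Type) (_ : MetricSpace X), Nonempty X ∧ CompactSpace X ∧ IsGeodesic X ∧
    IsHomogeneous X ∧ ∀ k : ℕ, ¬ CopsWin X k :=
  ⟨T, inferInstance, ⟨0⟩, compactT, geoT, homT, not_win⟩

end Pool.Agent.Results.MP_cb1e0a_co.Disproof
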